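import Pool.Agent.N516.SC.Stm

/-!
# Project SC, part EC: the number of edges of a cubic graph (helper712)
-/

set_option autoImplicit false

namespace Pool.Agent.N712.SC

open Pool.Agent.N516.SC

theorem t_EC : S_EC := by
  classical
  intro V _ G hG
  have h1 := G.sum_degrees_eq_twice_card_edges
  have h2 : ∀ v, G.degree v = 3 := by
    intro v
    rw [← hG v, ← SimpleGraph.card_neighborSet_eq_degree, Set.ncard_eq_toFinset_card',
      Set.toFinset_card]
  have h3 : G.edgeSet.ncard = G.edgeFinset.card := by
    rw [← SimpleGraph.coe_edgeFinset, Set.ncard_coe_finset]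
  rw [h3, ← h1, Finset.sum_congr rfl fun v _ => h2 v, Finset.sum_const, Finset.card_univ,
    smul_eq_mul, mul_comm]

end Pool.Agent.N712.SC
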